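import Mathlib

/-!
Lower bound: a graph with `2 b + 2` edge sums that needs `(b + 2) 2 ^ b / 32` sums as an induced
subgraph of a Cayley sum graph.
-/

namespace Pool.Agent.MP_091b59_co.Order

open Finset Function

/-- Sequences built step by step from option sets that depend on the past only. -/
lemma kraft {I : Type} (n : ℕ) (w : I → ℕ → ℤ) (O : I → ℕ → Finset ℤ)
    (hO : ∀ i j k, (∀ l < k, w i l = w j l) → O i k = O j k)
    (hw : ∀ i, ∀ k < n, w i k ∈ O i k)
    (hinj : ∀ i j, (∀ l < n, w i l = w j l) → i = j) (d : ℕ) :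
    ∀ (m : ℕ) (s : Finset I) (M : ℝ), m + d = n → 0 ≤ M →
      (∀ i ∈ s, ∀ j ∈ s, ∀ l < m, w i l = w j l) →
      (∀ i ∈ s, ∏ k ∈ Ico m n, ((O i k).card : ℝ) ≤ M) → (s.card : ℝ) ≤ M := by
  classical
  induction d with
  | zero =>
    intro m s M hm hM hs hp
    obtain rfl : m = n := by omega
    rcases s.eq_empty_or_nonempty with rfl | ⟨i, hi⟩
    · simpa using hM
    · have h1 : s.card ≤ 1 := card_le_one.2 fun a ha b hb => hinj a b (hs a ha b hb)
      have h2 := hp i hi
      simp only [Ico_self, prod_empty] at h2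
      exact le_trans (by exact_mod_cast h1) h2
  | succ d ih =>
    intro m s M hm hM hs hp
    rcases s.eq_empty_or_nonempty with rfl | ⟨i, hi⟩
    · simpa using hM
    have hmn : m < n := by omega
    have hpos : (0 : ℝ) < (O i m).card := by
      exact_mod_cast card_pos.2 ⟨_, hw i m hmn⟩
    have hmap : ∀ j ∈ s, w j m ∈ O i m := fun j hj => by
      rw [hO i j m (hs i hi j hj)]
      exact hw j m hmn
    rw [card_eq_sum_card_fiberwise (f := fun j => w j m) (t := O i m) hmap, Nat.cast_sum]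
    have hfib : ∀ x ∈ O i m, (((s.filter fun j => w j m = x).card : ℕ) : ℝ) ≤
        M / (O i m).card := by
      intro x _
      refine ih (m + 1) _ _ (by omega) (by positivity) ?_ ?_
      · intro a ha b hb l hl
        rw [mem_filter] at ha hb
        rcases Nat.lt_succ_iff_lt_or_eq.1 hl with h1 | rfl
        · exact hs a ha.1 b hb.1 l h1
        · rw [ha.2, hb.2]
      · intro a ha
        rw [mem_filter] at ha
        have h1 := hp a ha.1
        rw [prod_eq_prod_Ico_succ_bot hmn, ← hO i a m (hs i hi a ha.1)] at h1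
        rw [le_div_iff₀ hpos, mul_comm]
        exact h1
    refine (sum_le_card_nsmul _ _ _ hfib).trans ?_
    rw [nsmul_eq_mul, mul_div_cancel₀ _ hpos.ne']

lemma amgm (s : Finset ℕ) (o : ℕ → ℝ) (ho : ∀ k, 0 ≤ o k) (l : ℝ) (hl : 0 < l)
    (h : ∑ k ∈ s, o k ≤ l * s.card) : ∏ k ∈ s, o k ≤ l ^ s.card := by
  have h1 : ∏ k ∈ s, o k ≤ ∏ k ∈ s, l * Real.exp (o k / l - 1) := by
    refine prod_le_prod (fun k _ => ho k) fun k _ => ?_
    have := Real.add_one_le_exp (o k / l - 1)
    rw [sub_add_cancel, div_le_iff₀ hl, mul_comm] at this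
    exact this
  rw [prod_mul_distrib, prod_const, ← Real.exp_sum] at h1
  refine h1.trans (mul_le_of_le_one_right (by positivity) (Real.exp_le_one_iff.2 ?_))
  rw [sum_sub_distrib, ← sum_div, sum_const, nsmul_eq_mul, mul_one, sub_nonpos, div_le_iff₀ hl,
    mul_comm]
  exact h

lemma heavy (T H : Finset ℤ) (u : ℕ → ℤ) (n c : ℕ)
    (h : ∀ x ∈ H, c ≤ 2 * ((range n).filter fun k => x + u k ∈ T).card) :
    c * H.card ≤ 2 * (n * T.card) := by
  have h1 : ∑ x ∈ H, ((range n).filter fun k => x + u k ∈ T).card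
      = ∑ k ∈ range n, (H.filter fun x => x + u k ∈ T).card := by
    simp only [card_filter]
    exact sum_comm
  have h2 : ∀ k ∈ range n, (H.filter fun x => x + u k ∈ T).card ≤ T.card := fun k _ =>
    card_le_card_of_injOn (fun x => x + u k) (fun x hx => (mem_filter.1 (mem_coe.1 hx)).2)
      (fun x _ y _ e => add_right_cancel e)
  have h3 := sum_le_card_nsmul _ _ _ h2
  have h4 := card_nsmul_le_sum _ _ _ h
  rw [← mul_sum, h1] at h4
  rw [card_range, smul_eq_mul] at h3
  rw [smul_eq_mul, mul_comm] at h4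
  omega

/-- The option set at step `k`. -/
def opt (b : ℕ) (T : Finset ℤ) (u : ℕ → ℤ) (k : ℕ) : Finset ℤ :=
  if k = 0 then {0} else if k ≤ 2 * b then T.image (fun t => t - u (k - 1)) else
    (T.image fun t => t - u (k - (2 * b + 1))).filter fun x =>
      (∀ l ∈ range (k - (2 * b + 1)), (k + l) % 2 = 1 → x + u l ∉ T) ∧
        b + 2 ≤ 2 * ((range k).filter fun l => x + u l ∈ T).card

lemma opt_congr (b : ℕ) (T : Finset ℤ) (u v : ℕ → ℤ) (k : ℕ) (h : ∀ l < k, u l = v l) :
    opt b T u k = opt b T v k := by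
  unfold opt
  split_ifs with h1 h2
  · rfl
  · rw [h (k - 1) (by omega)]
  · rw [h (k - (2 * b + 1)) (by omega)]
    refine filter_congr fun x _ => and_congr (forall₂_congr fun l hl => ?_) ?_
    · rw [h l (by have := mem_range.1 hl; omega)]
    · rw [filter_congr fun l hl => by rw [h l (mem_range.1 hl)]]

lemma opt_card (b : ℕ) (T : Finset ℤ) (u : ℕ → ℤ) (k : ℕ) : (opt b T u k).card ≤ T.card + 1 := by
  unfold opt
  split_ifs
  · simp
  · exact card_image_le.trans (Nat.le_succ _)
  · exact (card_filter_le _ _).trans (card_image_le.trans (Nat.le_succ _))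

lemma opt_sum (b : ℕ) (T : Finset ℤ) (u : ℕ → ℤ) (n : ℕ) :
    (b + 2) * ∑ k ∈ Ico (2 * b + 1) n, (opt b T u k).card ≤ 4 * (n * T.card) := by
  have mem : ∀ k ∈ Ico (2 * b + 1) n, ∀ x ∈ opt b T u k, x + u (k - (2 * b + 1)) ∈ T ∧
      (∀ l ∈ range (k - (2 * b + 1)), (k + l) % 2 = 1 → x + u l ∉ T) ∧
        b + 2 ≤ 2 * ((range n).filter fun l => x + u l ∈ T).card := by
    intro k hk x hx
    rw [mem_Ico] at hk
    unfold opt at hx
    rw [if_neg (by omega), if_neg (by omega), mem_filter, mem_image] at hx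
    obtain ⟨⟨t, ht, rfl⟩, h1, h2⟩ := hx
    refine ⟨by simpa using ht, h1, h2.trans (Nat.mul_le_mul_left _ (card_le_card ?_))⟩
    exact filter_subset_filter _ (range_subset_range.2 hk.2.le)
  have par : ∀ K ⊆ Ico (2 * b + 1) n, (∀ k ∈ K, ∀ k' ∈ K, k % 2 = k' % 2) →
      (b + 2) * ∑ k ∈ K, (opt b T u k).card ≤ 2 * (n * T.card) := by
    intro K hK hp
    have hlt : ∀ k ∈ K, ∀ k' ∈ K, k < k' → Disjoint (opt b T u k) (opt b T u k') := by
      intro k hk k' hk' hlt
      rw [disjoint_left]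
      intro x hx hx'
      have h1 := mem_Ico.1 (hK hk)
      have h2 := hp k hk k' hk'
      exact (mem k' (hK hk') x hx').2.1 (k - (2 * b + 1)) (mem_range.2 (by omega)) (by omega)
        (mem k (hK hk) x hx).1
    rw [← card_biUnion (t := fun k => opt b T u k) (fun k hk k' hk' hne => by
      rcases lt_or_gt_of_ne hne with h | h
      · exact hlt k hk k' hk' h
      · exact (hlt k' hk' k hk h).symm)]
    refine heavy T _ u n _ fun x hx => ?_
    obtain ⟨k, hk, hx⟩ := mem_biUnion.1 hx
    exact (mem k (hK hk) x hx).2.2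
  rw [← sum_filter_add_sum_filter_not _ (fun k => k % 2 = 0), mul_add]
  have h1 := par _ (filter_subset (fun k => k % 2 = 0) _) fun k hk k' hk' => by
    rw [(mem_filter.1 hk).2, (mem_filter.1 hk').2]
  have h2 := par _ (filter_subset (fun k => ¬ k % 2 = 0) _) fun k hk k' hk' => by
    have := (mem_filter.1 hk).2
    have := (mem_filter.1 hk').2
    omega
  omega

/-- Subsets of `Fin b` with at least half of the points. -/
abbrev Big (b : ℕ) : Type := {D : Finset (Fin b) // b ≤ 2 * D.card}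

lemma card_big (b : ℕ) : 2 ^ b ≤ 2 * Fintype.card (Big b) := by
  rw [Fintype.card_subtype]
  have h1 := card_filter_add_card_filter_not (s := (univ : Finset (Finset (Fin b))))
    (fun D => b ≤ 2 * D.card)
  have h2 : (univ.filter fun D : Finset (Fin b) => ¬ b ≤ 2 * D.card).card ≤
      (univ.filter fun D : Finset (Fin b) => b ≤ 2 * D.card).card := by
    refine card_le_card_of_injOn (fun D => Dᶜ) ?_ fun D _ E _ h => compl_injective h
    intro D hD
    simp only [coe_filter, mem_univ, true_and, Set.mem_ofPred_eq, card_compl,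
      Fintype.card_fin] at hD ⊢
    omega
  rw [card_univ, Fintype.card_finset, Fintype.card_fin] at h1
  omega

/-- `l` is an earlier neighbour of `k` in the band graph with index `i`. -/
def back {b p : ℕ} (i : Fin p → Big b) (k l : ℕ) : Prop :=
  (k ≤ 2 * b ∧ l + 1 = k) ∨ ∃ t : Fin p, k = 2 * b + 1 + t ∧
    (l = t ∨ ∃ r ∈ (i t).1, l + 2 * (r : ℕ) + 1 = k)

lemma back_spec {b p : ℕ} {i : Fin p → Big b} {k l : ℕ} (h : back i k l) :
    ∃ r ≤ b, l + 2 * r + 1 = k := by
  rcases h with ⟨_, h⟩ | ⟨t, ht, h | ⟨r, _, h⟩⟩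
  · exact ⟨0, Nat.zero_le _, by omega⟩
  · exact ⟨b, le_rfl, by omega⟩
  · exact ⟨r, r.2.le, h⟩

lemma count (b p : ℕ) (hp : 2 * b + 1 ≤ p) (T : Finset ℤ) (hT : (T.card + 1) ^ (2 * b + 1) ≤ 2 ^ p)
    (w : (Fin p → Big b) → ℕ → ℤ) (h0 : ∀ i, w i 0 = 0)
    (h : ∀ i k l, l < k → k < 2 * b + 1 + p → (k + l) % 2 = 1 →
      (back i k l ↔ w i k + w i l ∈ T)) : (b + 2) * 2 ^ b ≤ 32 * T.card := by
  classical
  have hw : ∀ i, ∀ k < 2 * b + 1 + p, w i k ∈ opt b T (w i) k := by
    intro i k hk
    unfold opt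
    split_ifs with h1 h2
    · rw [h1, h0, mem_singleton]
    · refine mem_image.2 ⟨_, (h i k (k - 1) (by omega) hk (by omega)).1
        (Or.inl ⟨h2, by omega⟩), by ring⟩
    · obtain ⟨t, rfl⟩ : ∃ t : Fin p, k = 2 * b + 1 + t :=
        ⟨⟨k - (2 * b + 1), by omega⟩, by simp only; omega⟩
      rw [Nat.add_sub_cancel_left]
      have hf := (h i _ t (by omega) hk (by omega)).1 (Or.inr ⟨t, rfl, Or.inl rfl⟩)
      refine mem_filter.2 ⟨mem_image.2 ⟨_, hf, by ring⟩, fun l hl hodd hmem => ?_, ?_⟩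
      · have hl' := mem_range.1 hl
        obtain ⟨r, hr, e⟩ := back_spec ((h i _ l (by omega) hk hodd).2 hmem)
        omega
      · have hsub : insert (t : ℕ) ((i t).1.image fun r : Fin b => 2 * b + t - 2 * (r : ℕ)) ⊆
            (range (2 * b + 1 + t)).filter fun l => w i (2 * b + 1 + t) + w i l ∈ T := by
          intro l hl
          rcases mem_insert.1 hl with rfl | hl
          · exact mem_filter.2 ⟨mem_range.2 (by omega), hf⟩
          · obtain ⟨r, hr, rfl⟩ := mem_image.1 hl
            have := r.2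
            exact mem_filter.2 ⟨mem_range.2 (by omega), (h i _ _ (by omega) hk (by omega)).1
              (Or.inr ⟨t, rfl, Or.inr ⟨r, hr, by omega⟩⟩)⟩
        have hc := card_le_card hsub
        rw [card_insert_of_notMem (by
          intro hl
          obtain ⟨r, _, e⟩ := mem_image.1 hl
          have := r.2
          omega), card_image_of_injective _ (fun r s e => Fin.ext (by
            have := r.2
            have := s.2
            omega))] at hc
        have := (i t).2
        omega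
  have hinj : ∀ i j, (∀ l < 2 * b + 1 + p, w i l = w j l) → i = j := by
    have aux : ∀ i j, (∀ l < 2 * b + 1 + p, w i l = w j l) → ∀ t, ∀ r ∈ (i t).1, r ∈ (j t).1 := by
      intro i j hij t r hr
      have h1 := r.2
      have h2 := t.2
      have h3 := (h i (2 * b + 1 + t) (2 * b + t - 2 * r) (by omega) (by omega) (by omega)).1
        (Or.inr ⟨t, rfl, Or.inr ⟨r, hr, by omega⟩⟩)
      rw [hij _ (by omega), hij _ (by omega)] at h3
      rcases (h j _ _ (by omega) (by omega) (by omega)).2 h3 with h4 | ⟨s, hs, h4 | ⟨r', hr', h4⟩⟩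
      · omega
      · omega
      · obtain rfl : s = t := Fin.ext (by omega)
        obtain rfl : r' = r := Fin.ext (by omega)
        exact hr'
    intro i j hij
    funext t
    exact Subtype.ext (Subset.antisymm (aux i j hij t) (aux j i (fun l hl => (hij l hl).symm) t))
  have hN : 0 < T.card := by
    have h1 := hw (fun _ => ⟨univ, by simp; omega⟩) (2 * b + 1) (by omega)
    unfold opt at h1
    rw [if_neg (by omega), if_neg (by omega)] at h1
    obtain ⟨t, ht, _⟩ := mem_image.1 (mem_filter.1 h1).1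
    exact card_pos.2 ⟨t, ht⟩
  have hN' : (0 : ℝ) < T.card := by exact_mod_cast hN
  have hb2 : (0 : ℝ) < b + 2 := by positivity
  have main := kraft (2 * b + 1 + p) w (fun i => opt b T (w i))
    (fun i j k hk => opt_congr b T _ _ k hk) hw hinj _ 0 univ
    (2 ^ p * (8 * T.card / (b + 2)) ^ p) (zero_add _) (by positivity)
    (fun _ _ _ _ l hl => absurd hl (Nat.not_lt_zero _)) (by
      intro i _
      rw [← prod_Ico_consecutive _ (Nat.zero_le (2 * b + 1)) (Nat.le_add_right _ p)]
      refine mul_le_mul ?_ ?_ (by positivity) (by positivity)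
      · have h1 : ∏ k ∈ Ico 0 (2 * b + 1), (opt b T (w i) k).card ≤ 2 ^ p := by
          refine (prod_le_pow_card _ _ _ fun k _ => opt_card b T (w i) k).trans ?_
          simpa using hT
        exact_mod_cast h1
      · have h1 := amgm (Ico (2 * b + 1) (2 * b + 1 + p)) (fun k => ((opt b T (w i) k).card : ℝ))
          (fun _ => by positivity) (8 * T.card / (b + 2)) (by positivity) (by
            have h2 := opt_sum b T (w i) (2 * b + 1 + p)
            have h3 : (b + 2) * ∑ k ∈ Ico (2 * b + 1) (2 * b + 1 + p), (opt b T (w i) k).card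
                ≤ 8 * T.card * p := by nlinarith
            rw [Nat.card_Ico, Nat.add_sub_cancel_left, div_mul_eq_mul_div, le_div_iff₀ hb2,
              mul_comm]
            exact_mod_cast h3)
        rwa [Nat.card_Ico, Nat.add_sub_cancel_left] at h1)
  rw [card_univ, Fintype.card_fun, Fintype.card_fin, ← mul_pow, Nat.cast_pow] at main
  have h1 := le_of_pow_le_pow_left₀ (by omega) (by positivity) main
  have h2 : ((2 : ℝ)) ^ b ≤ 2 * Fintype.card (Big b) := by exact_mod_cast card_big b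
  rw [← mul_div_assoc, le_div_iff₀ hb2] at h1
  have h3 : ((b : ℝ) + 2) * 2 ^ b ≤ 32 * T.card := by nlinarith
  exact_mod_cast h3

theorem lower (b : ℕ) : ∃ (V : Type) (_ : Fintype V) (G : SimpleGraph V) (f : V → ℤ),
    Injective f ∧ (∀ u v, G.Adj u v → f u + f v ∈ Icc (-(b : ℤ)) (b + 1)) ∧
      ∀ (a : V → ℤ) (T : Finset ℤ), (∀ u v, u ≠ v → (G.Adj u v ↔ a u + a v ∈ T)) →
        (b + 2) * 2 ^ b ≤ 32 * T.card := by
  classical
  set p := (2 * b + 1) * ((b + 2) * 2 ^ b + 1) with hp
  set n := 2 * b + 1 + p with hn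
  obtain ⟨e, he⟩ := exists_injective_nat (Fin p → Big b)
  refine ⟨(Fin p → Big b) × Fin n, inferInstance,
    SimpleGraph.fromRel fun x y => x.1 = y.1 ∧ back x.1 x.2 y.2,
    fun x => if (x.2 : ℕ) % 2 = 0 then -(((x.2 : ℕ) / 2 + n * e x.1 : ℕ) : ℤ)
      else (((x.2 : ℕ) / 2 + n * e x.1 + 1 : ℕ) : ℤ), ?_, ?_, ?_⟩
  · rintro ⟨i, k⟩ ⟨j, l⟩ h
    have key : (k : ℕ) / 2 + n * e i = (l : ℕ) / 2 + n * e j ∧ (k : ℕ) % 2 = (l : ℕ) % 2 := by
      simp only at h
      split_ifs at h <;> omega
    have h1 := k.2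
    have h2 := l.2
    have h3 : e i = e j := by
      have h4 := congrArg (· / n) key.1
      simp only [Nat.add_mul_div_left _ _ (show 0 < n by omega)] at h4
      rw [Nat.div_eq_of_lt (by omega), Nat.div_eq_of_lt (by omega)] at h4
      omega
    obtain rfl := he h3
    exact Prod.ext rfl (Fin.ext (by simp only; omega))
  · rintro ⟨i, k⟩ ⟨j, l⟩ h
    rw [SimpleGraph.fromRel_adj] at h
    rcases h.2 with ⟨h1, h2⟩ | ⟨h1, h2⟩
    · obtain rfl : i = j := h1
      obtain ⟨r, hr, h3⟩ := back_spec h2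
      simp only [mem_Icc] at h3 ⊢
      split_ifs <;> omega
    · obtain rfl : j = i := h1
      obtain ⟨r, hr, h3⟩ := back_spec h2
      simp only [mem_Icc] at h3 ⊢
      split_ifs <;> omega
  · intro a T hT
    by_contra hcon
    apply hcon
    have hn0 : 0 < n := by omega
    refine count b p (Nat.le_mul_of_pos_right _ (by positivity)) T ?_
      (fun i k => if hk : k < n then
        (if k % 2 = 0 then a (i, ⟨k, hk⟩) - a (i, ⟨0, hn0⟩) else a (i, ⟨k, hk⟩) + a (i, ⟨0, hn0⟩))
        else 0) ?_ ?_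
    · rw [hp, mul_comm (2 * b + 1), pow_mul]
      refine Nat.pow_le_pow_left ?_ _
      exact le_trans (by omega) Nat.lt_two_pow_self.le
    · intro i
      simp [hn0]
    · intro i k l hl hk hodd
      have hl' : l < n := by omega
      have h1 := hT (i, ⟨k, hk⟩) (i, ⟨l, hl'⟩) (by simp; omega)
      rw [SimpleGraph.fromRel_adj] at h1
      simp only [dif_pos (show k < n from hk), dif_pos hl']
      have h2 : (if k % 2 = 0 then a (i, ⟨k, hk⟩) - a (i, ⟨0, hn0⟩)
          else a (i, ⟨k, hk⟩) + a (i, ⟨0, hn0⟩)) + (if l % 2 = 0 then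
          a (i, ⟨l, hl'⟩) - a (i, ⟨0, hn0⟩) else a (i, ⟨l, hl'⟩) + a (i, ⟨0, hn0⟩))
          = a (i, ⟨k, hk⟩) + a (i, ⟨l, hl'⟩) := by
        split_ifs <;> omega
      rw [h2, ← h1]
      constructor
      · intro hb
        exact ⟨by simp; omega, Or.inl ⟨rfl, hb⟩⟩
      · rintro ⟨_, ⟨_, hb⟩ | ⟨_, hb⟩⟩
        · exact hb
        · obtain ⟨r, _, h3⟩ := back_spec hb
          simp only at h3
          omega

end Pool.Agent.MP_091b59_co.Order
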