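import Mathlib

/-!
Upper bound: a graph whose edge sums lie in a set `S` of at most `2 b` integers is an induced
subgraph of a Cayley sum graph with at most `|S| 2 ^ b` sums.
-/

namespace Pool.Agent.MP_091b59_co.Order

open Finset Function

lemma bits (a : ℕ → ℕ) (e : ℕ → Bool) (b : ℕ) :
    ∃ x < 2 ^ b, ∀ k < b, (x + a k).testBit k = e k := by
  induction b with
  | zero => exact ⟨0, by simp, by simp⟩
  | succ b ih =>
    obtain ⟨x, hx, h⟩ := ih
    by_cases hb : (x + a b).testBit b = e b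
    · refine ⟨x, by rw [pow_succ]; omega, fun k hk => ?_⟩
      rcases Nat.lt_succ_iff_lt_or_eq.1 hk with h1 | rfl
      · exact h k h1
      · exact hb
    · refine ⟨2 ^ b + x, by rw [pow_succ]; omega, fun k hk => ?_⟩
      rcases Nat.lt_succ_iff_lt_or_eq.1 hk with h1 | rfl
      · rw [add_assoc, Nat.testBit_two_pow_add_gt h1]
        exact h k h1
      · rw [add_assoc, Nat.testBit_two_pow_add_eq]
        revert hb
        cases (x + a k).testBit k <;> cases e k <;> simp

lemma bits' {V : Type} [Nonempty V] (U : Set V) (ι : V → ℕ) (hι : Set.InjOn ι U) (b : ℕ)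
    (hb : ∀ u ∈ U, ι u < b) (h : V → ℕ) (e : V → Bool) :
    ∃ x < 2 ^ b, ∀ u ∈ U, (x + h u).testBit (ι u) = e u := by
  obtain ⟨x, hx, H⟩ := bits (fun j => h (invFunOn ι U j)) (fun j => e (invFunOn ι U j)) b
  refine ⟨x, hx, fun u hu => ?_⟩
  have := H (ι u) (hb u hu)
  rwa [hι.leftInvOn_invFunOn hu] at this

lemma greedy {V : Type} (κ : V → ℕ) (P : ℕ → Prop) (R : V → V → ℕ → ℕ → Prop)
    (H : ∀ v (h : V → ℕ), ∃ x, P x ∧ ∀ u, κ u < κ v → R u v (h u) x) (m : ℕ) :
    ∃ h : V → ℕ, ∀ v, κ v < m → P (h v) ∧ ∀ u, κ u < κ v → R u v (h u) (h v) := by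
  classical
  induction m with
  | zero => exact ⟨fun _ => 0, fun v hv => absurd hv (Nat.not_lt_zero _)⟩
  | succ m ih =>
    obtain ⟨h, hh⟩ := ih
    choose X hX using H
    refine ⟨fun v => if κ v = m then X v h else h v, fun v hv => ?_⟩
    by_cases hm : κ v = m
    · simp only [if_pos hm]
      refine ⟨(hX v h).1, fun u hu => ?_⟩
      rw [if_neg (by omega)]
      exact (hX v h).2 u hu
    · simp only [if_neg hm]
      refine ⟨(hh v (by omega)).1, fun u hu => ?_⟩
      rw [if_neg (by omega)]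
      exact (hh v (by omega)).2 u hu

lemma median (S : Finset ℤ) (b : ℕ) (hS : S.card ≤ 2 * b) :
    ∃ c : ℤ, (S.filter (· ≤ c)).card ≤ b ∧ (S.filter (fun s => ¬ s ≤ c)).card ≤ b := by
  by_cases h : S.card ≤ b
  · exact ⟨0, (card_filter_le _ _).trans h, (card_filter_le _ _).trans h⟩
  obtain ⟨M, hM⟩ := S.bddAbove
  obtain ⟨L, hL⟩ := S.bddBelow
  obtain ⟨c, hc, hmax⟩ := Int.exists_greatest_of_bdd
    (P := fun c => (S.filter (· ≤ c)).card ≤ b) ⟨M, fun z hz => by
      by_contra hlt
      apply h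
      rwa [filter_true_of_mem (fun s hs => (hM (mem_coe.2 hs)).trans (by omega))] at hz⟩
    ⟨L - 1, by
      rw [filter_false_of_mem (fun s hs => by have := hL (mem_coe.2 hs); omega)]
      simp⟩
  refine ⟨c, hc, ?_⟩
  have h1 : ¬ (S.filter (· ≤ c + 1)).card ≤ b := fun h1 => by have := hmax _ h1; omega
  have h2 : S.filter (· ≤ c + 1) ⊆ insert (c + 1) (S.filter (· ≤ c)) := by
    intro s hs
    rw [mem_filter] at hs
    rw [mem_insert, mem_filter]
    by_cases h3 : s = c + 1
    · exact Or.inl h3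
    · exact Or.inr ⟨hs.1, by have := hs.2; omega⟩
  have h3 := (card_le_card h2).trans (card_insert_le _ _)
  have h4 := card_filter_add_card_filter_not (s := S) (fun s => s ≤ c)
  omega

lemma index (A : Finset ℤ) (b : ℕ) (hA : A.card ≤ b) :
    ∃ k : ℤ → ℕ, Set.InjOn k A ∧ ∀ s ∈ A, k s < b := by
  classical
  refine ⟨fun s => if h : s ∈ A then (A.equivFin ⟨s, h⟩ : ℕ) else 0, ?_, ?_⟩
  · intro s hs t ht hst
    have hs' : s ∈ A := hs
    have ht' : t ∈ A := ht
    simp only [dif_pos hs', dif_pos ht'] at hst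
    exact congrArg Subtype.val (A.equivFin.injective (Fin.ext hst))
  · intro s hs
    simp only [dif_pos hs]
    exact (A.equivFin ⟨s, hs⟩).2.trans_le hA

lemma half (b k : ℕ) (hk : k < b) :
    ((range (2 * 2 ^ b)).filter (fun y => y.testBit k = true)).card ≤ 2 ^ b := by
  have h1 := card_filter_add_card_filter_not (s := range (2 * 2 ^ b))
    (fun y => y.testBit k = true)
  have h2 : ((range (2 * 2 ^ b)).filter (fun y => y.testBit k = true)).card ≤
      ((range (2 * 2 ^ b)).filter (fun y => ¬ y.testBit k = true)).card := by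
    refine card_le_card_of_injOn (fun y => y ^^^ 2 ^ k) ?_ ?_
    · intro y hy
      simp only [coe_filter, mem_range, Set.mem_ofPred_eq] at hy ⊢
      refine ⟨?_, ?_⟩
      · rw [← pow_succ'] at hy ⊢
        exact Nat.xor_lt_two_pow hy.1 (Nat.pow_lt_pow_right (by norm_num) (by omega))
      · simp [Nat.testBit_xor, hy.2]
    · intro y _ z _ h
      exact Nat.xor_left_injective h
  rw [card_range] at h1
  omega

theorem upper {V : Type} [Fintype V] (G : SimpleGraph V) (f : V → ℤ) (hf : Injective f)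
    (S : Finset ℤ) (hS : ∀ u v, G.Adj u v → f u + f v ∈ S) (b : ℕ) (hb : S.card ≤ 2 * b) :
    ∃ (a : V → ℤ) (T : Finset ℤ), Injective a ∧ T.card ≤ S.card * 2 ^ b ∧
      ∀ u v, u ≠ v → (G.Adj u v ↔ a u + a v ∈ T) := by
  classical
  obtain ⟨c, hc1, hc2⟩ := median S b hb
  obtain ⟨k1, hk1, hk1'⟩ := index _ b hc1
  obtain ⟨k2, hk2, hk2'⟩ := index _ b hc2
  set k : ℤ → ℕ := fun s => if s ≤ c then k1 s else k2 s with hk
  have hkb : ∀ s ∈ S, k s < b := by
    intro s hs
    by_cases h : s ≤ c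
    · simp only [hk, if_pos h]
      exact hk1' s (mem_filter.2 ⟨hs, h⟩)
    · simp only [hk, if_neg h]
      exact hk2' s (mem_filter.2 ⟨hs, h⟩)
  have hkinj : ∀ s ∈ S, ∀ t ∈ S, (s ≤ c ↔ t ≤ c) → k s = k t → s = t := by
    intro s hs t ht hst h
    by_cases h1 : s ≤ c
    · have h2 := hst.1 h1
      simp only [hk, if_pos h1, if_pos h2] at h
      exact hk1 (mem_coe.2 (mem_filter.2 ⟨hs, h1⟩)) (mem_coe.2 (mem_filter.2 ⟨ht, h2⟩)) h
    · have h2 : ¬ t ≤ c := fun h2 => h1 (hst.2 h2)
      simp only [hk, if_neg h1, if_neg h2] at h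
      exact hk2 (mem_coe.2 (mem_filter.2 ⟨hs, h1⟩)) (mem_coe.2 (mem_filter.2 ⟨ht, h2⟩)) h
  set κ : V → ℕ := fun v => (4 * f v - (2 * c + 1)).natAbs with hκ
  obtain ⟨m, hm⟩ := (univ.image κ).bddAbove
  obtain ⟨h, hh⟩ := greedy κ (fun x => x < 2 ^ b)
    (fun u v y x => f u + f v ∈ S → (x + y).testBit (k (f u + f v)) = decide (G.Adj u v))
    (by
      intro v h
      have : Nonempty V := ⟨v⟩
      obtain ⟨x, hx, H⟩ := bits' {u | κ u < κ v ∧ f u + f v ∈ S} (fun u => k (f u + f v))
        (by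
          intro u hu u' hu' huu
          have h1 := hu.1
          have h2 := hu'.1
          simp only [hκ] at h1 h2
          have := hkinj _ hu.2 _ hu'.2 (by omega) huu
          exact hf (by omega))
        b (fun u hu => hkb _ hu.2) h (fun u => decide (G.Adj u v))
      exact ⟨x, hx, fun u hu hs => H u ⟨hu, hs⟩⟩) (m + 1)
  have hh' := fun v => hh v (Nat.lt_succ_of_le (hm (mem_coe.2 (mem_image_of_mem κ (mem_univ v)))))
  have key : ∀ u v, u ≠ v → f u + f v ∈ S →
      ((h u + h v).testBit (k (f u + f v)) = true ↔ G.Adj u v) := by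
    intro u v huv hs
    have hne : f u ≠ f v := fun e => huv (hf e)
    have : κ u < κ v ∨ κ v < κ u := by
      simp only [hκ]
      omega
    rcases this with h1 | h1
    · rw [add_comm (h u), (hh' v).2 u h1 hs, decide_eq_true_iff]
    · rw [add_comm (f u)] at hs ⊢
      rw [(hh' u).2 v h1 hs, decide_eq_true_iff, G.adj_comm]
  have uniq : ∀ (s t : ℤ) (y z q : ℕ), y < q → z < q → s * q + y = t * q + z → s = t ∧ y = z := by
    intro s t y z q hy hz e
    have hy' : (y : ℤ) < q := by exact_mod_cast hy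
    have hz' : (z : ℤ) < q := by exact_mod_cast hz
    have y0 : (0 : ℤ) ≤ y := by positivity
    have z0 : (0 : ℤ) ≤ z := by positivity
    have hst : s = t := by
      rcases lt_trichotomy s t with h1 | h1 | h1
      · nlinarith [mul_le_mul_of_nonneg_right (show s + 1 ≤ t by omega) (y0.trans hy'.le)]
      · exact h1
      · nlinarith [mul_le_mul_of_nonneg_right (show t + 1 ≤ s by omega) (y0.trans hy'.le)]
    subst hst
    exact ⟨rfl, by omega⟩
  refine ⟨fun v => f v * ((2 * 2 ^ b : ℕ) : ℤ) + (h v : ℤ),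
    S.biUnion fun s => ((range (2 * 2 ^ b)).filter (fun y => y.testBit (k s) = true)).image
      fun y : ℕ => s * ((2 * 2 ^ b : ℕ) : ℤ) + (y : ℤ), ?_, ?_, ?_⟩
  · intro u v e
    have h1 := (hh' u).1
    have h2 := (hh' v).1
    exact hf (uniq _ _ _ _ _ (by omega) (by omega) e).1
  · refine card_biUnion_le.trans ?_
    refine (sum_le_card_nsmul _ _ (2 ^ b) fun s hs => ?_).trans (by simp)
    exact card_image_le.trans (half b _ (hkb s hs))
  · intro u v huv
    have h1 := (hh' u).1
    have h2 := (hh' v).1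
    constructor
    · intro hadj
      refine mem_biUnion.2 ⟨_, hS u v hadj, mem_image.2 ⟨h u + h v,
        mem_filter.2 ⟨mem_range.2 (by omega), (key u v huv (hS u v hadj)).2 hadj⟩, ?_⟩⟩
      rw [Nat.cast_add]
      ring
    · intro hT
      obtain ⟨s, hs, hT⟩ := mem_biUnion.1 hT
      obtain ⟨y, hy, e⟩ := mem_image.1 hT
      rw [mem_filter, mem_range] at hy
      obtain ⟨rfl, rfl⟩ := uniq s (f u + f v) y (h u + h v) (2 * 2 ^ b) hy.1 (by omega)
        (by rw [e, Nat.cast_add (h u)]; ring)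
      exact (key u v huv hs).1 hy.2

end Pool.Agent.MP_091b59_co.Order
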